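import Pool.Agent.Lib.MP_28303a_al.NT.Lab

/-! # Objects over `k[t, t⁻¹]` are retracts of objects which extend to `k[t]` -/

set_option autoImplicit false
set_option linter.unusedSectionVars false
set_option linter.unusedVariables false

namespace Pool.Agent.NegK.NT.H32

universe u

open CategoryTheory Limits Pretriangulated

/-! ### Descent of morphisms along an injective ring homomorphism -/

section

variable {k k' : Type u} [Ring k] [Ring k'] {Γ : Type u} [Group Γ] {B : Type u} [MulAction Γ B]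
  {P : Pre Γ B} (φ : k →+* k')

open Classical in
/-- A preimage, or `0`. -/
noncomputable def pre (x : k') : k := if h : ∃ y, φ y = x then h.choose else 0

theorem pre_spec {x : k'} (h : ∃ y, φ y = x) : φ (pre φ x) = x := by
  rw [pre, dif_pos h]
  exact h.choose_spec

theorem pre_zero (hφ : Function.Injective φ) : pre φ 0 = 0 :=
  hφ ((pre_spec φ ⟨0, map_zero φ⟩).trans (map_zero φ).symm)

/-- Preimages of the coefficients. -/
noncomputable def lv (hφ : Function.Injective φ) (ι : Type u) (v : ι →₀ MonoidAlgebra k' Γ) :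
    ι →₀ MonoidAlgebra k Γ :=
  v.mapRange (fun b => MonoidAlgebra.ofCoeff (b.coeff.mapRange (pre φ) (pre_zero φ hφ))) (by
    ext g
    exact pre_zero φ hφ)

theorem coeff_lv (hφ : Function.Injective φ) (ι : Type u) (v : ι →₀ MonoidAlgebra k' Γ) (i : ι)
    (g : Γ) : (lv φ hφ ι v i).coeff g = pre φ ((v i).coeff g) := rfl

theorem mf_lv (hφ : Function.Injective φ) (ι : Type u) (v : ι →₀ MonoidAlgebra k' Γ)
    (h : ∀ i g, ∃ y, φ y = (v i).coeff g) : Loc.mf φ ι (lv φ hφ ι v) = v := by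
  ext i g
  rw [Loc.coeff_mf, coeff_lv, pre_spec φ (h i g)]

theorem mf_inj (hφ : Function.Injective φ) (ι : Type u) :
    Function.Injective (Loc.mf (Γ := Γ) φ ι) := by
  intro x y h
  ext i g
  have := congrArg (fun z : ι →₀ MonoidAlgebra k' Γ => (z i).coeff g) h
  simp only [Loc.coeff_mf] at this
  exact hφ this

theorem bm_single {A A' : Loc k P} (f : A ⟶ A') (i : A.ι) :
    Loc.lin (A := (Loc.bo A : Loc k' P)) (A' := Loc.bo A') (Loc.bm φ f) (Finsupp.single i 1) =
      Loc.mf φ A'.ι (Loc.lin f (Finsupp.single i 1)) :=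
  Loc.lin_ofB (A := (Loc.bo A : Loc k' P)) (A' := Loc.bo A') _ _ i

theorem bm_inj (hφ : Function.Injective φ) {A A' : Loc k P} {f h : A ⟶ A'}
    (H : Loc.bm φ f = Loc.bm φ h) : f = h := by
  refine Loc.ext_basis fun i => mf_inj φ hφ _ ?_
  rw [← bm_single, ← bm_single, H]

theorem exists_lift (hφ : Function.Injective φ) (A A' : Loc k P)
    (f : (Loc.bo A : Loc k' P) ⟶ Loc.bo A')
    (h : ∀ (x : A.ι) (y : A'.ι) (g : Γ), ∃ q, φ q =
      ent (Loc.lin (A := Loc.bo A) (A' := Loc.bo A') f) x y g) :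
    ∃ f₀ : A ⟶ A', Loc.bm φ f₀ = f := by
  refine ⟨Loc.ofB (A := A) (A' := A') (fun x => lv φ hφ A'.ι
    (Loc.lin (A := Loc.bo A) (A' := Loc.bo A') f (Finsupp.single x 1))) ?_, ?_⟩
  · intro i j g hg
    rw [coeff_lv] at hg
    refine Loc.spt_lin (A := Loc.bo A) (A' := Loc.bo A') f i j g fun h0 => hg ?_
    rw [h0, pre_zero φ hφ]
  · refine Loc.ext_basis (A := Loc.bo A) (A' := Loc.bo A') fun i => ?_
    refine (bm_single φ _ i).trans ?_
    rw [Loc.lin_ofB]
    exact mf_lv φ hφ _ _ fun j g => h i j g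

end

/-! ### Diagonal automorphisms -/

section

variable {k : Type u} [Ring k] {Γ : Type u} [Group Γ] {B : Type u} [MulAction Γ B]
  {P : Pre Γ B}

/-- Multiplication of the basis elements by powers of `t`. -/
noncomputable def dg (A : Loc (LaurentPolynomial k) P) (e : A.ι → ℤ) : A ⟶ A :=
  Loc.ofB (A := A) (A' := A)
    (fun i => Finsupp.single i (MonoidAlgebra.single 1 (LaurentPolynomial.T (e i)))) (by
    classical
    intro i j g hg
    rw [Finsupp.single_apply] at hg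
    split_ifs at hg with h1
    · subst h1
      rw [MonoidAlgebra.coeff_single, Finsupp.single_apply] at hg
      split_ifs at hg with h2
      · rw [← h2, one_smul]
        exact P.refl _
      · exact absurd rfl hg
    · exact absurd rfl hg)

theorem lin_dg (A : Loc (LaurentPolynomial k) P) (e : A.ι → ℤ) (i : A.ι) :
    Loc.lin (dg A e) (Finsupp.single i 1) =
      Finsupp.single i (MonoidAlgebra.single 1 (LaurentPolynomial.T (e i))) :=
  Loc.lin_ofB _ _ i

theorem lin_dg_apply (A : Loc (LaurentPolynomial k) P) (e : A.ι → ℤ) (v : A.F) (i : A.ι) :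
    Loc.lin (dg A e) v i = v i * MonoidAlgebra.single 1 (LaurentPolynomial.T (e i)) := by
  classical
  rw [Loc.map_apply, Finsupp.sum]
  simp only [lin_dg]
  by_cases hi : i ∈ v.support
  · rw [Finset.sum_eq_single i]
    · rw [Finsupp.single_eq_same]
    · intro j _ hj
      rw [Finsupp.single_apply, if_neg hj, mul_zero]
    · intro h
      exact absurd hi h
  · rw [Finset.sum_eq_zero, Finsupp.notMem_support_iff.1 hi, zero_mul]
    intro j hj
    rw [Finsupp.single_apply, if_neg, mul_zero]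
    rintro rfl
    exact hi hj

theorem ent_comp_dg {A A' : Loc (LaurentPolynomial k) P} (f : A ⟶ A') (e : A'.ι → ℤ) (x : A.ι)
    (y : A'.ι) (g : Γ) :
    ent (Loc.lin (f ≫ dg A' e)) x y g = ent (Loc.lin f) x y g * LaurentPolynomial.T (e y) := by
  rw [ent, ent, Loc.lin_comp, LinearMap.comp_apply, lin_dg_apply,
    MonoidAlgebra.coeff_mul_single_apply, inv_one, mul_one]

theorem ent_dg_comp {A A' : Loc (LaurentPolynomial k) P} (e : A.ι → ℤ) (f : A ⟶ A') (x : A.ι)
    (y : A'.ι) (g : Γ) :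
    ent (Loc.lin (dg A e ≫ f)) x y g = LaurentPolynomial.T (e x) * ent (Loc.lin f) x y g := by
  have h1 : (Finsupp.single x (MonoidAlgebra.single 1 (LaurentPolynomial.T (e x))) : A.F) =
      (MonoidAlgebra.single 1 (LaurentPolynomial.T (e x)) :
        MonoidAlgebra (LaurentPolynomial k) Γ) •
        Finsupp.single x (1 : MonoidAlgebra (LaurentPolynomial k) Γ) := by
    rw [Finsupp.smul_single, smul_eq_mul, mul_one]
  rw [ent, ent, Loc.lin_comp, LinearMap.comp_apply, lin_dg, h1, map_smul, Finsupp.smul_apply,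
    smul_eq_mul, MonoidAlgebra.coeff_single_mul_apply, inv_one, one_mul]

/-- Equality of morphisms from the equality of the entries. -/
theorem ext_ent {k : Type u} [Ring k] {P : Pre Γ B} {A A' : Loc k P} {f h : A ⟶ A'}
    (H : ∀ x y g, ent (Loc.lin f) x y g = ent (Loc.lin h) x y g) : f = h := by
  refine Loc.ext_basis fun i => ?_
  ext j g
  exact H i j g

theorem dg_comp (A : Loc (LaurentPolynomial k) P) (e e' : A.ι → ℤ) :
    dg A e ≫ dg A e' = dg A (fun i => e i + e' i) := by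
  classical
  refine Loc.ext_basis fun i => ?_
  ext j g
  rw [Loc.lin_comp, LinearMap.comp_apply, lin_dg_apply, lin_dg, lin_dg]
  by_cases hij : i = j
  · subst hij
    rw [Finsupp.single_eq_same, Finsupp.single_eq_same, MonoidAlgebra.single_mul_single, mul_one,
      LaurentPolynomial.T_add]
  · rw [Finsupp.single_apply, Finsupp.single_apply, if_neg hij, if_neg hij, zero_mul]

theorem dg_zero (A : Loc (LaurentPolynomial k) P) : dg A (fun _ => 0) = 𝟙 A := by
  refine Loc.ext_basis fun i => ?_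
  rw [lin_dg, LaurentPolynomial.T_zero]
  rfl

theorem dg_neg_comp (A : Loc (LaurentPolynomial k) P) (e : A.ι → ℤ) :
    dg A (fun i => -e i) ≫ dg A e = 𝟙 A := by
  rw [dg_comp, ← dg_zero]
  congr 1
  funext i
  exact neg_add_cancel _

theorem dg_comp_neg (A : Loc (LaurentPolynomial k) P) (e : A.ι → ℤ) :
    dg A e ≫ dg A (fun i => -e i) = 𝟙 A := by
  rw [dg_comp, ← dg_zero]
  congr 1
  funext i
  exact add_neg_cancel _

/-- Denominators of the entries. -/
theorem exB {ι ι' : Type u} [Finite ι] [Finite ι']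
    (f : (ι →₀ MonoidAlgebra (LaurentPolynomial k) Γ) →ₗ[MonoidAlgebra (LaurentPolynomial k) Γ]
      (ι' →₀ MonoidAlgebra (LaurentPolynomial k) Γ)) :
    ∃ N : ℕ, ∀ m : ℕ, N ≤ m → ∀ x y g, ∃ q : Polynomial k,
      Polynomial.toLaurent q = ent f x y g * LaurentPolynomial.T (m : ℤ) := by
  classical
  cases nonempty_fintype ι
  cases nonempty_fintype ι'
  choose M F hM using fun (x : ι) (y : ι') (g : Γ) =>
    LaurentPolynomial.exists_T_pow (ent f x y g)
  refine ⟨Finset.univ.sup fun x : ι => Finset.univ.sup fun y : ι' =>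
    ((f (Finsupp.single x 1) y).coeff.support).sup fun g => M x y g, ?_⟩
  intro m hm x y g
  by_cases h0 : ent f x y g = 0
  · exact ⟨0, by rw [h0, zero_mul, map_zero]⟩
  · have h1 : M x y g ≤ m := by
      refine le_trans ?_ hm
      refine le_trans ?_ (Finset.le_sup (Finset.mem_univ x))
      refine le_trans ?_ (Finset.le_sup (Finset.mem_univ y))
      exact Finset.le_sup (f := fun g => M x y g) (Finsupp.mem_support_iff.2 h0)
    refine ⟨F x y g * Polynomial.X ^ (m - M x y g), ?_⟩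
    rw [map_mul, hM, Polynomial.toLaurent_X_pow, mul_assoc, ← LaurentPolynomial.T_add]
    congr 2
    push_cast [Nat.cast_sub h1]
    ring

end

section

variable {k k' : Type u} [Ring k] [Ring k'] {Γ : Type u} [Group Γ] {B : Type u} [MulAction Γ B]
  {P : Pre Γ B} (φ : k →+* k')

theorem bm_comp {A A' A'' : Loc k P} (f : A ⟶ A') (h : A' ⟶ A'') :
    Loc.bm φ (f ≫ h) = Loc.bm φ f ≫ Loc.bm φ h := (Loc.bc φ).map_comp f h

theorem bm_id (A : Loc k P) : Loc.bm φ (𝟙 A) = 𝟙 (Loc.bo A : Loc k' P) := (Loc.bc φ).map_id A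

theorem bm_add {A A' : Loc k P} (f h : A ⟶ A') :
    Loc.bm φ (f + h) = Loc.bm φ f + Loc.bm φ h := (Loc.bc φ).map_add

theorem bm_zero (A A' : Loc k P) : Loc.bm φ (0 : A ⟶ A') = 0 := (Loc.bc φ).map_zero A A'

theorem ent_zero {ι ι' : Type u} (x : ι) (y : ι') (g : Γ) :
    ent (0 : (ι →₀ MonoidAlgebra k Γ) →ₗ[MonoidAlgebra k Γ] (ι' →₀ MonoidAlgebra k Γ)) x y g = 0 :=
  rfl

end

/-! ### The construction -/

section

variable {Γ : Type u} [Group Γ] {T : Sys Γ} {S J : Finset (Fin T.m)} {k : Type u} [Ring k]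
  (Λ : T.Lab S J (LaurentPolynomial k)) (N : ℕ)

/-- The objects over `k[t]`. -/
abbrev pX (n : ℤ) : Loc (Polynomial k) (T.P S) := ⟨(Λ.E.X n).ι, (Λ.E.X n).loc⟩

/-- The exponents. -/
def ex (n : ℤ) (x : (Λ.E.X n).ι) : ℤ := (N : ℤ) * (Λ.gr (Λ.π n x) : ℤ)

/-- The rescaled differential. -/
noncomputable def cj (n n' : ℤ) : Λ.E.X n ⟶ Λ.E.X n' :=
  dg (Λ.E.X n) (fun x => -ex Λ N n x) ≫ Λ.E.d n n' ≫ dg (Λ.E.X n') (ex Λ N n')

theorem ent_cj (n n' : ℤ) (x : (Λ.E.X n).ι) (y : (Λ.E.X n').ι) (g : Γ) :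
    ent (Loc.lin (cj Λ N n n')) x y g =
      ent (Loc.lin (Λ.E.d n n')) x y g * LaurentPolynomial.T (ex Λ N n' y - ex Λ N n x) := by
  rw [cj, ent_dg_comp, ent_comp_dg, LaurentPolynomial.T_mul, mul_assoc, ← LaurentPolynomial.T_add,
    sub_eq_add_neg]

theorem exists_N : ∃ N : ℕ, ∀ (n n' : ℤ) (x : (Λ.E.X n).ι) (y : (Λ.E.X n').ι) (g : Γ),
    ∃ q : Polynomial k, Polynomial.toLaurent q = ent (Loc.lin (cj Λ N n n')) x y g := by
  obtain ⟨a, b, hab⟩ := Λ.fin.bdd
  have hfin := Λ.fin.fin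
  choose M hM using fun n : ℤ => exB (Loc.lin (Λ.E.d n (n + 1)))
  refine ⟨(Finset.Icc a b).sup M, fun n n' x y g => ?_⟩
  rw [ent_cj]
  by_cases h0 : ent (Loc.lin (Λ.E.d n n')) x y g = 0
  · exact ⟨0, by rw [h0, zero_mul, map_zero]⟩
  have hr : n + 1 = n' := by
    by_contra hc
    refine h0 ?_
    rw [Λ.E.shape n n' hc]
    exact ent_zero x y g
  subst hr
  have hn : n ∈ Finset.Icc a b := by
    rw [Finset.mem_Icc]
    by_contra hc
    have : n < a ∨ b < n := by
      by_contra hc'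
      push Not at hc'
      exact hc ⟨hc'.1, hc'.2⟩
    exact (hab n this).false x
  have hMn : M n ≤ (Finset.Icc a b).sup M := Finset.le_sup hn
  rcases Λ.dgr n (n + 1) x y g h0 with h1 | ⟨h1, h2, z, hz⟩
  · obtain ⟨r, hr⟩ := Nat.exists_eq_add_of_lt h1
    have h3 : ex Λ ((Finset.Icc a b).sup M) (n + 1) y - ex Λ ((Finset.Icc a b).sup M) n x =
        (((Finset.Icc a b).sup M * (r + 1) : ℕ) : ℤ) := by
      rw [ex, ex, hr]
      push_cast
      ring
    rw [h3]
    refine hM n _ (hMn.trans ?_) x y g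
    exact Nat.le_mul_of_pos_right _ (Nat.succ_pos r)
  · have h3 : ex Λ ((Finset.Icc a b).sup M) (n + 1) y - ex Λ ((Finset.Icc a b).sup M) n x = 0 := by
      rw [ex, ex, h2, sub_self]
    rw [h3, LaurentPolynomial.T_zero, mul_one, hz]
    exact ⟨(z : Polynomial k), map_intCast _ z⟩

/-- The rescaled differentials compose as the differentials. -/
theorem cj_comp (n n' n'' : ℤ) : cj Λ N n n' ≫ cj Λ N n' n'' = 0 := by
  have h1 : dg (Λ.E.X n') (ex Λ N n') ≫ dg (Λ.E.X n') (fun x => -ex Λ N n' x) = 𝟙 _ :=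
    dg_comp_neg _ _
  calc cj Λ N n n' ≫ cj Λ N n' n''
      = dg (Λ.E.X n) (fun x => -ex Λ N n x) ≫ Λ.E.d n n' ≫
        (dg (Λ.E.X n') (ex Λ N n') ≫ dg (Λ.E.X n') (fun x => -ex Λ N n' x)) ≫
        Λ.E.d n' n'' ≫ dg (Λ.E.X n'') (ex Λ N n'') := by
        simp only [cj, Category.assoc]
    _ = dg (Λ.E.X n) (fun x => -ex Λ N n x) ≫ (Λ.E.d n n' ≫ Λ.E.d n' n'') ≫
        dg (Λ.E.X n'') (ex Λ N n'') := by
        rw [h1, Category.id_comp]
        simp only [Category.assoc]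
    _ = 0 := by rw [Λ.E.d_comp_d, zero_comp, comp_zero]

theorem cj_shape (n n' : ℤ) (h : ¬ (ComplexShape.up ℤ).Rel n n') : cj Λ N n n' = 0 := by
  rw [cj, Λ.E.shape n n' h, zero_comp, comp_zero]

/-- The complex over `k[t]`. -/
noncomputable def cE (D : ∀ n n' : ℤ, pX Λ n ⟶ pX Λ n')
    (hD : ∀ n n', Loc.bm Polynomial.toLaurent (D n n') = cj Λ N n n') :
    CochainComplex (Loc (Polynomial k) (T.P S)) ℤ where
  X := pX Λ
  d := D
  shape n n' h := bm_inj _ Polynomial.toLaurent_injective (by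
    rw [hD, bm_zero]
    exact cj_shape Λ N n n' h)
  d_comp_d' n n' n'' _ _ := bm_inj _ Polynomial.toLaurent_injective (by
    rw [bm_comp, hD, hD, bm_zero]
    exact cj_comp Λ N n n' n'')

/-- The localization of the complex over `k[t]`. -/
noncomputable def locIso (D : ∀ n n' : ℤ, pX Λ n ⟶ pX Λ n')
    (hD : ∀ n n', Loc.bm Polynomial.toLaurent (D n n') = cj Λ N n n') :
    ((Loc.bc (P := T.P S) (Polynomial.toLaurent (R := k))).mapHomologicalComplex
      (ComplexShape.up ℤ)).obj (cE Λ N D hD) ≅ Λ.E :=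
  HomologicalComplex.Hom.isoOfComponents (fun n =>
    { hom := dg (Λ.E.X n) (fun x => -ex Λ N n x)
      inv := dg (Λ.E.X n) (ex Λ N n)
      hom_inv_id := dg_neg_comp _ _
      inv_hom_id := dg_comp_neg _ _ }) (by
    intro n n' _
    change dg (Λ.E.X n) (fun x => -ex Λ N n x) ≫ Λ.E.d n n' =
      Loc.bm Polynomial.toLaurent (D n n') ≫ dg (Λ.E.X n') (fun x => -ex Λ N n' x)
    rw [hD, cj, Category.assoc, Category.assoc, dg_comp_neg, Category.comp_id])

theorem fin_cE (D : ∀ n n' : ℤ, pX Λ n ⟶ pX Λ n')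
    (hD : ∀ n n', Loc.bm Polynomial.toLaurent (D n n') = cj Λ N n n') :
    FinC (cE Λ N D hD) := ⟨fun n => Λ.fin.fin n, Λ.fin.bdd⟩

/-- A contraction gives a null-homotopy of the identity. -/
theorem nullH {V : Type*} [Category V] [Preadditive V] (K : CochainComplex V ℤ)
    (h : ∀ n n' : ℤ, K.X n ⟶ K.X n')
    (hh : ∀ n' n n'' : ℤ, n' + 1 = n → n + 1 = n'' →
      h n n' ≫ K.d n' n + K.d n n'' ≫ h n'' n = 𝟙 (K.X n)) :
    Nonempty (Homotopy (𝟙 K) 0) := by
  classical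
  refine ⟨{ hom := fun i j => if j + 1 = i then h i j else 0, zero := ?_, comm := ?_ }⟩
  · intro i j hij
    exact if_neg hij
  · intro n
    have h1 : (ComplexShape.up ℤ).Rel n (n + 1) := rfl
    have h2 : (ComplexShape.up ℤ).Rel (n - 1) n := sub_add_cancel n 1
    rw [dNext_eq _ h1, prevD_eq _ h2]
    have h3 : n - 1 + 1 = n := sub_add_cancel n 1
    rw [if_pos rfl, if_pos h3, HomologicalComplex.zero_f, add_zero, add_comm]
    exact (hh (n - 1) n (n + 1) h3 rfl).symm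

/-- Change of the locations of a morphism. -/
noncomputable def pm {k : Type u} [Ring k] {B B' : Type u} [MulAction Γ B] [MulAction Γ B']
    {P : Pre Γ B} {Q : Pre Γ B'} (m : Loc.Mono P Q) {A A' : Loc k P} (f : A ⟶ A') :
    Loc.tr m A ⟶ Loc.tr m A' := (Loc.push m).map f

section

variable {j : Fin T.m} (hj : j ∈ J)

/-- The contraction as a morphism. -/
noncomputable def cm (hj : j ∈ J) (n n' : ℤ) :
    Loc.tr (T.fg (S.erase_subset j)) (Λ.E.X n) ⟶ Loc.tr (T.fg (S.erase_subset j)) (Λ.E.X n') :=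
  Loc.hm (A := Loc.tr (T.fg (S.erase_subset j)) (Λ.E.X n))
    (A' := Loc.tr (T.fg (S.erase_subset j)) (Λ.E.X n')) (Λ.c j n n') (by
    intro x y g hg i hi
    obtain ⟨h1, _, _, h2⟩ := Λ.csp j hj n n' x y g hg
    rw [h1, one_smul]
    exact h2 i (Finset.mem_of_mem_erase hi) (Finset.ne_of_mem_erase hi))

theorem cm_rel (n' n n'' : ℤ) (h1 : n' + 1 = n) (h2 : n + 1 = n'') :
    cm Λ hj n n' ≫ pm (T.fg (S.erase_subset j)) (Λ.E.d n' n) +
      pm (T.fg (S.erase_subset j)) (Λ.E.d n n'') ≫ cm Λ hj n'' n =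
      𝟙 (Loc.tr (T.fg (S.erase_subset j)) (Λ.E.X n)) :=
  Loc.hom_ext (Λ.cd j hj n' n n'' h1 h2)

theorem cm_dg (n n' : ℤ) :
    cm Λ hj n n' ≫ dg (Loc.tr (T.fg (S.erase_subset j)) (Λ.E.X n')) (fun x => -ex Λ N n' x) =
      dg (Loc.tr (T.fg (S.erase_subset j)) (Λ.E.X n)) (fun x => -ex Λ N n x) ≫
        cm Λ hj n n' := by
  refine ext_ent fun x y g => ?_
  rw [ent_comp_dg, ent_dg_comp]
  by_cases h0 : ent (Loc.lin (cm Λ hj n n')) x y g = 0
  · rw [h0, zero_mul, mul_zero]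
  · have h1 : Λ.π n x = Λ.π n' y := (Λ.csp j hj n n' x y g h0).2.1
    rw [LaurentPolynomial.T_mul]
    congr 2
    rw [ex, ex, h1]

theorem dg_cm (n n' : ℤ) :
    dg (Loc.tr (T.fg (S.erase_subset j)) (Λ.E.X n)) (ex Λ N n) ≫ cm Λ hj n n' =
      cm Λ hj n n' ≫ dg (Loc.tr (T.fg (S.erase_subset j)) (Λ.E.X n')) (ex Λ N n') := by
  refine ext_ent fun x y g => ?_
  rw [ent_comp_dg, ent_dg_comp]
  by_cases h0 : ent (Loc.lin (cm Λ hj n n')) x y g = 0
  · rw [h0, zero_mul, mul_zero]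
  · have h1 : Λ.π n x = Λ.π n' y := (Λ.csp j hj n n' x y g h0).2.1
    rw [LaurentPolynomial.T_mul]
    congr 2
    rw [ex, ex, h1]

/-- The pushed rescaled differential. -/
theorem push_cj (n n' : ℤ) :
    pm (T.fg (S.erase_subset j)) (cj Λ N n n') =
      dg (Loc.tr (T.fg (S.erase_subset j)) (Λ.E.X n)) (fun x => -ex Λ N n x) ≫
        pm (T.fg (S.erase_subset j)) (Λ.E.d n n') ≫
        dg (Loc.tr (T.fg (S.erase_subset j)) (Λ.E.X n')) (ex Λ N n') := rfl

theorem cm_rel' (n' n n'' : ℤ) (h1 : n' + 1 = n) (h2 : n + 1 = n'') :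
    cm Λ hj n n' ≫ pm (T.fg (S.erase_subset j)) (cj Λ N n' n) +
      pm (T.fg (S.erase_subset j)) (cj Λ N n n'') ≫ cm Λ hj n'' n =
      𝟙 (Loc.tr (T.fg (S.erase_subset j)) (Λ.E.X n)) := by
  rw [push_cj, push_cj, Category.assoc, Category.assoc, dg_cm, ← Category.assoc, cm_dg,
    Category.assoc, ← Preadditive.comp_add, ← Category.assoc (cm Λ hj n n'),
    ← Category.assoc (pm (T.fg (S.erase_subset j)) (Λ.E.d n n'')),
    ← Preadditive.add_comp, cm_rel Λ hj n' n n'' h1 h2, Category.id_comp, dg_neg_comp]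

theorem cm_lift (n n' : ℤ) :
    ∃ h : Loc.tr (T.fg (S.erase_subset j)) (pX Λ n) ⟶ Loc.tr (T.fg (S.erase_subset j)) (pX Λ n'),
      Loc.bm Polynomial.toLaurent h = cm Λ hj n n' := by
  refine exists_lift _ Polynomial.toLaurent_injective
    (Loc.tr (T.fg (S.erase_subset j)) (pX Λ n)) (Loc.tr (T.fg (S.erase_subset j)) (pX Λ n'))
    (cm Λ hj n n') fun x y g => ?_
  by_cases h0 : ent (Loc.lin (cm Λ hj n n')) x y g = 0
  · exact ⟨0, by rw [map_zero]; exact h0.symm⟩
  · obtain ⟨z, hz⟩ := (Λ.csp j hj n n' x y g h0).2.2.1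
    exact ⟨(z : Polynomial k), (map_intCast _ z).trans hz.symm⟩

include hj in
theorem ac_cE (D : ∀ n n' : ℤ, pX Λ n ⟶ pX Λ n')
    (hD : ∀ n n', Loc.bm Polynomial.toLaurent (D n n') = cj Λ N n n') :
    IsZero ((T.L (Polynomial k) (S.erase_subset j)).obj (qo (cE Λ N D hD))) := by
  choose h hh using cm_lift Λ hj
  have key : Nonempty (Homotopy (𝟙 (((Loc.push (T.fg (S.erase_subset j))).mapHomologicalComplex
      (ComplexShape.up ℤ)).obj (cE Λ N D hD))) 0) := by
    refine nullH _ h fun n' n n'' h1 h2 => ?_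
    change h n n' ≫ pm (T.fg (S.erase_subset j)) (D n' n) +
      pm (T.fg (S.erase_subset j)) (D n n'') ≫ h n'' n =
      𝟙 (Loc.tr (T.fg (S.erase_subset j)) (pX Λ n))
    refine bm_inj _ Polynomial.toLaurent_injective ?_
    rw [bm_add, bm_comp, bm_comp, hh, hh, bm_id]
    have e1 : ∀ a b : ℤ, Loc.bm Polynomial.toLaurent
        (pm (T.fg (S.erase_subset j)) (D a b)) =
        pm (T.fg (S.erase_subset j)) (cj Λ N a b) := by
      intro a b
      rw [← hD]
      rfl
    rw [e1, e1]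
    exact cm_rel' Λ N hj n' n n'' h1 h2
  exact (HomotopyCategory.isZero_quotient_obj_iff _).2 key

end

end

/-- RET. -/
theorem ret {Γ : Type u} [Group Γ] (T : Sys Γ) (hK : T.KOS) : T.RET := by
  intro S J hJS k _ X hX
  obtain ⟨Λ, ⟨ρ⟩⟩ := hK S J hJS (LaurentPolynomial k) X hX
  obtain ⟨N, hN⟩ := exists_N Λ
  have hlift : ∀ n n' : ℤ, ∃ D : pX Λ n ⟶ pX Λ n',
      Loc.bm Polynomial.toLaurent D = cj Λ N n n' := fun n n' =>
    exists_lift _ Polynomial.toLaurent_injective (pX Λ n) (pX Λ n') (cj Λ N n n') (hN n n')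
  choose D hD using hlift
  refine ⟨qo (cE Λ N D hD), ⟨⟨_, fin_cE Λ N D hD, ⟨Retract.refl _⟩⟩, fun j hj =>
    ac_cE Λ N hj D hD⟩, ⟨ρ.trans (Retract.ofIso ?_)⟩⟩
  exact ((HomotopyCategory.quotient _ _).mapIso (locIso Λ N D hD)).symm

end Pool.Agent.NegK.NT.H32
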